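import Pool.Agent.Q86.EM.Stm2

/-!
# Project FS of helper86, job CRB: a crude Poincare inequality for all fibres
-/

set_option autoImplicit false

namespace Pool.Agent.Q182.EM

open MeasureTheory Set Filter Topology
open Pool.Agent.Q86.EM
open Pool.Agent.Q86.FIB

variable {n : ℕ}

theorem gi {b : ℝ} (hb : 0 < b) :
    Integrable (fun x : EuclideanSpace ℝ (Fin n) => Real.exp (-(b * ‖x‖ ^ 2))) := by
  have h := GaussianFourier.integrable_cexp_neg_mul_sq_norm_add (V := EuclideanSpace ℝ (Fin n))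
    (b := (b : ℂ)) (by simpa using hb) 0 0
  refine h.norm.congr (Eventually.of_forall fun x => ?_)
  beta_reduce
  rw [Complex.norm_exp]
  congr 1
  simp only [zero_mul, add_zero]
  rw [← Complex.ofReal_neg, ← Complex.ofReal_pow, ← Complex.ofReal_mul, Complex.ofReal_re]
  ring

theorem gi2 {b : ℝ} (hb : 0 < b) :
    Integrable (fun x : EuclideanSpace ℝ (Fin n) => ‖x‖ ^ 2 * Real.exp (-(b * ‖x‖ ^ 2))) := by
  refine ((gi (n := n) (b := b / 2) (by positivity)).const_mul (2 / b)).mono' ?_ ?_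
  · exact (by fun_prop : Continuous (fun x : EuclideanSpace ℝ (Fin n) =>
      ‖x‖ ^ 2 * Real.exp (-(b * ‖x‖ ^ 2)))).aestronglyMeasurable
  · refine Eventually.of_forall fun x => ?_
    rw [Real.norm_of_nonneg (by positivity)]
    have h1 : b / 2 * ‖x‖ ^ 2 ≤ Real.exp (b / 2 * ‖x‖ ^ 2) :=
      (by linarith [Real.add_one_le_exp (b / 2 * ‖x‖ ^ 2)])
    have h2 : ‖x‖ ^ 2 ≤ 2 / b * Real.exp (b / 2 * ‖x‖ ^ 2) := by
      rw [div_mul_eq_mul_div, le_div_iff₀ hb]
      linarith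
    calc ‖x‖ ^ 2 * Real.exp (-(b * ‖x‖ ^ 2))
        ≤ (2 / b * Real.exp (b / 2 * ‖x‖ ^ 2)) * Real.exp (-(b * ‖x‖ ^ 2)) :=
          mul_le_mul_of_nonneg_right h2 (Real.exp_pos _).le
      _ = 2 / b * Real.exp (-(b / 2 * ‖x‖ ^ 2)) := by
          rw [mul_assoc, ← Real.exp_add]
          congr 2
          ring

/-- the part of a point in the second factor -/
noncomputable def zc (q : EK 1 n) : EuclideanSpace ℝ (Fin n) := (lp n).symm (spl 1 n q).2

theorem nsq (p : EK 1 n) : ‖p‖ ^ 2 = tc p ^ 2 + ‖zc p‖ ^ 2 := by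
  rw [EuclideanSpace.norm_sq_eq, lp_norm_sq, Fintype.sum_sum_type]
  congr 1
  · rw [Fin.sum_univ_one, Real.norm_eq_abs, sq_abs]
    rfl
  · refine Finset.sum_congr rfl fun i _ => ?_
    rw [Real.norm_eq_abs, sq_abs]
    unfold zc
    rw [ContinuousLinearEquiv.apply_symm_apply]
    rfl

/-- the point over `t` -/
noncomputable def pq (t : Sp 1) (x : EuclideanSpace ℝ (Fin n)) : EK 1 n := (spl 1 n).symm (t, lp n x)

theorem nsq_sub (t : Sp 1) (x : EuclideanSpace ℝ (Fin n)) (q : EK 1 n) :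
    ‖pq t x - q‖ ^ 2 = (t 0 - tc q) ^ 2 + ‖x - zc q‖ ^ 2 := by
  have h1 : tc (pq t x - q) = t 0 - tc q := by
    unfold tc pq
    rw [map_sub, ContinuousLinearEquiv.apply_symm_apply]
    rfl
  have h2 : zc (pq t x - q) = x - zc q := by
    unfold zc pq
    rw [map_sub, ContinuousLinearEquiv.apply_symm_apply, Prod.snd_sub, map_sub,
      ContinuousLinearEquiv.symm_apply_apply]
  rw [nsq, h1, h2]

theorem zc_le {q : EK 1 n} {R : ℝ} (hR : 0 ≤ R) (hq : ‖q‖ ≤ R) : ‖zc q‖ ≤ R := by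
  have h := nsq q
  have h1 : ‖zc q‖ ^ 2 ≤ R ^ 2 := by
    have h2 : ‖q‖ ^ 2 ≤ R ^ 2 := pow_le_pow_left₀ (norm_nonneg _) hq 2
    nlinarith [sq_nonneg (tc q)]
  exact (pow_le_pow_iff_left₀ (norm_nonneg _) hR two_ne_zero).1 h1

theorem scale1 {s b : ℝ} (hs : 0 < s) :
    ∫ x : EuclideanSpace ℝ (Fin n), Real.exp (-(b * s ^ 2 * ‖x‖ ^ 2)) =
      (s ^ n)⁻¹ * ∫ x : EuclideanSpace ℝ (Fin n), Real.exp (-(b * ‖x‖ ^ 2)) := by
  have h := Measure.integral_comp_smul (volume : Measure (EuclideanSpace ℝ (Fin n)))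
    (fun x => Real.exp (-(b * ‖x‖ ^ 2))) s
  rw [finrank_euclideanSpace_fin, abs_of_pos (by positivity), smul_eq_mul] at h
  rw [← h]
  refine integral_congr_ae (Eventually.of_forall fun x => ?_)
  simp only
  rw [norm_smul, Real.norm_of_nonneg hs.le, mul_pow, mul_assoc]

theorem scale2 {s b : ℝ} (hs : 0 < s) :
    ∫ x : EuclideanSpace ℝ (Fin n), ‖x‖ ^ 2 * Real.exp (-(b * s ^ 2 * ‖x‖ ^ 2)) =
      (s ^ 2)⁻¹ * ((s ^ n)⁻¹ * ∫ x : EuclideanSpace ℝ (Fin n), ‖x‖ ^ 2 * Real.exp (-(b * ‖x‖ ^ 2))) := by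
  have h := Measure.integral_comp_smul (volume : Measure (EuclideanSpace ℝ (Fin n)))
    (fun x => ‖x‖ ^ 2 * Real.exp (-(b * ‖x‖ ^ 2))) s
  rw [finrank_euclideanSpace_fin, abs_of_pos (by positivity), smul_eq_mul] at h
  rw [← h, ← integral_const_mul]
  refine integral_congr_ae (Eventually.of_forall fun x => ?_)
  simp only
  rw [norm_smul, Real.norm_of_nonneg hs.le, mul_pow, mul_assoc b]
  have := hs.ne'
  field_simp

theorem gpos {b : ℝ} (hb : 0 < b) :
    0 < ∫ x : EuclideanSpace ℝ (Fin n), Real.exp (-(b * ‖x‖ ^ 2)) := by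
  rw [integral_pos_iff_support_of_nonneg (fun x => (Real.exp_pos _).le) (gi hb)]
  have : Function.support (fun x : EuclideanSpace ℝ (Fin n) => Real.exp (-(b * ‖x‖ ^ 2))) = univ := by
    ext x
    simp [(Real.exp_pos _).ne']
  rw [this]
  exact NeZero.pos _

/-- **the second moments of the fibres**, uniformly -/
theorem moment (D : Set (EK 1 n)) (hD : CB D) : ∃ σ : ℝ, 0 < σ ∧ ∀ A : ℝ, 1 ≤ A →
    ∀ U : EK 1 n → ℝ, Ap D A U → ∀ t : Sp 1,
      Integrable (fun x : EuclideanSpace ℝ (Fin n) => Real.exp (-U (pq t x))) ∧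
      Integrable (fun x : EuclideanSpace ℝ (Fin n) => ‖x‖ ^ 2 * Real.exp (-U (pq t x))) ∧
      ∫ x : EuclideanSpace ℝ (Fin n), ‖x‖ ^ 2 * Real.exp (-U (pq t x)) ≤
        σ ^ 2 * ∫ x : EuclideanSpace ℝ (Fin n), Real.exp (-U (pq t x)) := by
  obtain ⟨R₀, hR₀⟩ := hD.cpt.isBounded.subset_closedBall (0 : EK 1 n)
  obtain ⟨R, hR1, hR⟩ : ∃ R : ℝ, 1 ≤ R ∧ ∀ q ∈ D, ‖q‖ ≤ R := by
    refine ⟨max R₀ 1, le_max_right _ _, fun q hq => ?_⟩
    have := hR₀ hq
    rw [mem_closedBall_zero_iff] at this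
    exact this.trans (le_max_left _ _)
  have hR0 : 0 < R := by linarith
  have hne : D.Nonempty := hD.int.mono interior_subset
  obtain ⟨c1, hc1⟩ : ∃ c1, c1 = ∫ x : EuclideanSpace ℝ (Fin n), Real.exp (-(1 / 2 * ‖x‖ ^ 2)) := ⟨_, rfl⟩
  obtain ⟨c2, hc2⟩ : ∃ c2, c2 = ∫ x : EuclideanSpace ℝ (Fin n),
    ‖x‖ ^ 2 * Real.exp (-(2 / 9 * ‖x‖ ^ 2)) := ⟨_, rfl⟩
  have hc1p : 0 < c1 := by
    rw [hc1]
    exact gpos (by norm_num)
  have hc2p : 0 ≤ c2 := by
    rw [hc2]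
    exact integral_nonneg fun x => by positivity
  have hS : 0 < 9 * R ^ 2 + Real.exp 1 * (c2 / c1) := by positivity
  refine ⟨Real.sqrt (9 * R ^ 2 + Real.exp 1 * (c2 / c1)), Real.sqrt_pos.2 hS, ?_⟩
  rw [Real.sq_sqrt hS.le]
  intro A hA U hU t
  have hA0 : 0 < A := by linarith
  have hcd : Continuous fun q : EK 1 n => |t 0 - tc q| := by
    have h1 : Continuous fun q : EK 1 n => tc q :=
      (continuous_apply 0).comp (continuous_fst.comp (spl 1 n).continuous)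
    exact (continuous_const.sub h1).abs
  obtain ⟨p, hp, hpmin⟩ := hD.cpt.exists_isMinOn hne hcd.continuousOn
  obtain ⟨τ, hτ⟩ : ∃ τ, τ = (t 0 - tc p) ^ 2 := ⟨_, rfl⟩
  have hτ0 : 0 ≤ τ := by
    rw [hτ]
    positivity
  have hmin : ∀ q ∈ D, τ ≤ (t 0 - tc q) ^ 2 := by
    intro q hq
    have h1 : |t 0 - tc p| ≤ |t 0 - tc q| := hpmin hq
    rw [hτ]
    exact sq_le_sq.2 h1
  have hup : ∀ x : EuclideanSpace ℝ (Fin n), Metric.infDist (pq t x) D ^ 2 ≤ τ + ‖x - zc p‖ ^ 2 := by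
    intro x
    have h1 := Metric.infDist_le_dist_of_mem (x := pq t x) hp
    rw [dist_eq_norm] at h1
    have h2 := pow_le_pow_left₀ Metric.infDist_nonneg h1 2
    rw [nsq_sub] at h2
    rw [hτ]
    exact h2
  have hlow : ∀ x : EuclideanSpace ℝ (Fin n), ∃ z : EuclideanSpace ℝ (Fin n), ‖z‖ ≤ R ∧
      τ + ‖x - z‖ ^ 2 ≤ Metric.infDist (pq t x) D ^ 2 := by
    intro x
    obtain ⟨q, hq, h1⟩ := hD.cpt.exists_infDist_eq_dist hne (pq t x)
    refine ⟨zc q, zc_le hR0.le (hR q hq), ?_⟩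
    rw [h1, dist_eq_norm, nsq_sub]
    have := hmin q hq
    linarith
  have hlow1 : ∀ x : EuclideanSpace ℝ (Fin n), ‖x‖ ^ 2 / 2 - R ^ 2 ≤ Metric.infDist (pq t x) D ^ 2 := by
    intro x
    obtain ⟨z, hz, h1⟩ := hlow x
    have h2 : ‖x‖ ≤ ‖x - z‖ + ‖z‖ := by
      have := norm_add_le (x - z) z
      rwa [sub_add_cancel] at this
    have h3 : ‖x‖ ≤ ‖x - z‖ + R := h2.trans (by linarith)
    have h4 : ‖x‖ ^ 2 ≤ (‖x - z‖ + R) ^ 2 := pow_le_pow_left₀ (norm_nonneg _) h3 2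
    nlinarith [sq_nonneg (‖x - z‖ - R)]
  have hlow2 : ∀ x : EuclideanSpace ℝ (Fin n), 3 * R ≤ ‖x‖ →
      τ + 4 / 9 * ‖x‖ ^ 2 ≤ Metric.infDist (pq t x) D ^ 2 := by
    intro x hx
    obtain ⟨z, hz, h1⟩ := hlow x
    have h2 : ‖x‖ ≤ ‖x - z‖ + ‖z‖ := by
      have := norm_add_le (x - z) z
      rwa [sub_add_cancel] at this
    have h3 : 2 / 3 * ‖x‖ ≤ ‖x - z‖ := by linarith
    have h4 : (2 / 3 * ‖x‖) ^ 2 ≤ ‖x - z‖ ^ 2 := pow_le_pow_left₀ (by positivity) h3 2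
    nlinarith
  have hUc : Continuous U := hU.htg.1.continuous
  have hpc : Continuous fun x : EuclideanSpace ℝ (Fin n) => pq t x :=
    (spl 1 n).symm.continuous.comp (continuous_const.prodMk (lp n).continuous)
  have hZc : Continuous fun x : EuclideanSpace ℝ (Fin n) => Real.exp (-U (pq t x)) :=
    Real.continuous_exp.comp (hUc.comp hpc).neg
  have hZ1 : ∀ x : EuclideanSpace ℝ (Fin n), Real.exp (-U (pq t x)) ≤
      Real.exp (A * R ^ 2 / 2) * Real.exp (-(A / 4 * ‖x‖ ^ 2)) := by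
    intro x
    rw [← Real.exp_add]
    refine Real.exp_le_exp.2 ?_
    have h1 := hU.lo (pq t x)
    have h2 := mul_le_mul_of_nonneg_left (hlow1 x) (by positivity : (0 : ℝ) ≤ A / 2)
    nlinarith
  have i1 : Integrable (fun x : EuclideanSpace ℝ (Fin n) => Real.exp (-U (pq t x))) := by
    refine ((gi (n := n) (b := A / 4) (by positivity)).const_mul (Real.exp (A * R ^ 2 / 2))).mono'
      hZc.aestronglyMeasurable (Eventually.of_forall fun x => ?_)
    rw [Real.norm_of_nonneg (Real.exp_pos _).le]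
    exact hZ1 x
  have i2 : Integrable (fun x : EuclideanSpace ℝ (Fin n) => ‖x‖ ^ 2 * Real.exp (-U (pq t x))) := by
    refine ((gi2 (n := n) (b := A / 4) (by positivity)).const_mul (Real.exp (A * R ^ 2 / 2))).mono'
      ((continuous_norm.pow 2).mul hZc).aestronglyMeasurable (Eventually.of_forall fun x => ?_)
    rw [Real.norm_of_nonneg (by positivity)]
    have := mul_le_mul_of_nonneg_left (hZ1 x) (sq_nonneg ‖x‖)
    calc ‖x‖ ^ 2 * Real.exp (-U (pq t x)) ≤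
          ‖x‖ ^ 2 * (Real.exp (A * R ^ 2 / 2) * Real.exp (-(A / 4 * ‖x‖ ^ 2))) := this
      _ = _ := by ring
  refine ⟨i1, i2, ?_⟩
  obtain ⟨s, hs⟩ : ∃ s, s = Real.sqrt A := ⟨_, rfl⟩
  have hs0 : 0 < s := by
    rw [hs]
    exact Real.sqrt_pos.2 hA0
  have hs2 : s ^ 2 = A := by
    rw [hs]
    exact Real.sq_sqrt hA0.le
  -- pointwise
  have i3 : Integrable (fun x : EuclideanSpace ℝ (Fin n) =>
      ‖x‖ ^ 2 * Real.exp (-(2 / 9 * s ^ 2 * ‖x‖ ^ 2))) := gi2 (by positivity)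
  have h1 : ∫ x : EuclideanSpace ℝ (Fin n), ‖x‖ ^ 2 * Real.exp (-U (pq t x)) ≤
      9 * R ^ 2 * (∫ x : EuclideanSpace ℝ (Fin n), Real.exp (-U (pq t x))) +
        Real.exp (-(A * τ / 2)) * ∫ x : EuclideanSpace ℝ (Fin n),
          ‖x‖ ^ 2 * Real.exp (-(2 / 9 * s ^ 2 * ‖x‖ ^ 2)) := by
    rw [← integral_const_mul, ← integral_const_mul, ← integral_add (i1.const_mul _) (i3.const_mul _)]
    refine integral_mono i2 ((i1.const_mul _).add (i3.const_mul _)) fun x => ?_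
    simp only
    rcases le_total ‖x‖ (3 * R) with hx | hx
    · have h2 : ‖x‖ ^ 2 ≤ 9 * R ^ 2 := by
        have := pow_le_pow_left₀ (norm_nonneg _) hx 2
        nlinarith
      have h3 := mul_le_mul_of_nonneg_right h2 (Real.exp_pos (-U (pq t x))).le
      have h4 : 0 ≤ Real.exp (-(A * τ / 2)) * (‖x‖ ^ 2 * Real.exp (-(2 / 9 * s ^ 2 * ‖x‖ ^ 2))) := by
        positivity
      linarith
    · have h2 : Real.exp (-U (pq t x)) ≤
          Real.exp (-(A * τ / 2)) * Real.exp (-(2 / 9 * s ^ 2 * ‖x‖ ^ 2)) := by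
        rw [← Real.exp_add]
        refine Real.exp_le_exp.2 ?_
        have h3 := hU.lo (pq t x)
        have h4 := mul_le_mul_of_nonneg_left (hlow2 x hx) (by positivity : (0 : ℝ) ≤ A / 2)
        rw [hs2]
        nlinarith
      have h3 := mul_le_mul_of_nonneg_left h2 (sq_nonneg ‖x‖)
      have h4 : 0 ≤ 9 * R ^ 2 * Real.exp (-U (pq t x)) := by positivity
      linarith
  rw [scale2 hs0, ← hc2] at h1
  -- from below
  have i4 : Integrable (fun x : EuclideanSpace ℝ (Fin n) =>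
      Real.exp (-(1 / 2 * s ^ 2 * ‖x - zc p‖ ^ 2))) :=
    (gi (n := n) (b := 1 / 2 * s ^ 2) (by positivity)).comp_sub_right (zc p)
  have h2 : Real.exp (-(A * τ / 2) - 1) * ((s ^ n)⁻¹ * c1) ≤
      ∫ x : EuclideanSpace ℝ (Fin n), Real.exp (-U (pq t x)) := by
    have e1 : (s ^ n)⁻¹ * c1 = ∫ x : EuclideanSpace ℝ (Fin n),
        Real.exp (-(1 / 2 * s ^ 2 * ‖x - zc p‖ ^ 2)) := by
      rw [hc1, ← scale1 hs0]
      exact (integral_sub_right_eq_self (fun x : EuclideanSpace ℝ (Fin n) =>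
        Real.exp (-(1 / 2 * s ^ 2 * ‖x‖ ^ 2))) (zc p)).symm
    rw [e1, ← integral_const_mul]
    refine integral_mono (i4.const_mul _) i1 fun x => ?_
    simp only
    rw [← Real.exp_add]
    refine Real.exp_le_exp.2 ?_
    have h3 := hU.hi (pq t x)
    have h4 := mul_le_mul_of_nonneg_left (hup x) (by positivity : (0 : ℝ) ≤ A / 2)
    have h5 : 1 / A ≤ 1 := by
      rw [div_le_one hA0]
      exact hA
    rw [hs2]
    nlinarith
  have h3 : Real.exp (-(A * τ / 2)) * ((s ^ 2)⁻¹ * ((s ^ n)⁻¹ * c2)) ≤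
      Real.exp 1 * (c2 / c1) * (Real.exp (-(A * τ / 2) - 1) * ((s ^ n)⁻¹ * c1)) := by
    have e1 : Real.exp 1 * (c2 / c1) * (Real.exp (-(A * τ / 2) - 1) * ((s ^ n)⁻¹ * c1)) =
        (Real.exp 1 * Real.exp (-(A * τ / 2) - 1)) * ((s ^ n)⁻¹ * c2) := by
      have := hc1p.ne'
      field_simp
    rw [e1, ← Real.exp_add, show (1 : ℝ) + (-(A * τ / 2) - 1) = -(A * τ / 2) by ring]
    refine mul_le_mul_of_nonneg_left ?_ (Real.exp_pos _).le
    have h4 : (s ^ 2)⁻¹ ≤ 1 := by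
      rw [hs2]
      exact inv_le_one_of_one_le₀ hA
    exact mul_le_of_le_one_left (by positivity) h4
  have h4 := mul_le_mul_of_nonneg_left h2 (by positivity : (0 : ℝ) ≤ Real.exp 1 * (c2 / c1))
  linarith

/-- JOB FS-CRB -/
theorem crb : S_CRB := by
  obtain ⟨C, hC, hcr⟩ := Pool.Agent.H888R2.KT.crude_all
  intro n D hD
  obtain ⟨σ, hσ, hmo⟩ := moment D hD
  refine ⟨C * σ ^ 2, by positivity, fun A hA U hU t φ hφ hφs => ?_⟩
  obtain ⟨i1, i2, hm⟩ := hmo A hA U hU t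
  have hUc : Continuous U := hU.htg.1.continuous
  have hWc : Continuous fun z : Sp n => onSp U (t, z) :=
    hUc.comp ((spl 1 n).symm.continuous.comp (continuous_const.prodMk continuous_id))
  have hEc : Continuous fun z : Sp n => Real.exp (-onSp U (t, z)) := Real.continuous_exp.comp hWc.neg
  have hpc : Continuous fun x : EuclideanSpace ℝ (Fin n) => pq t x :=
    (spl 1 n).symm.continuous.comp (continuous_const.prodMk (lp n).continuous)
  have hZc : Continuous fun x : EuclideanSpace ℝ (Fin n) => Real.exp (-U (pq t x)) :=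
    Real.continuous_exp.comp (hUc.comp hpc).neg
  have hZe : ∀ x : EuclideanSpace ℝ (Fin n), Real.exp (-U (pq t x)) =
      (fun z : Sp n => Real.exp (-onSp U (t, z))) (lp n x) := fun x => rfl
  have bb : ∀ g : Sp n → ℝ, Continuous g → HasCompactSupport g →
      Integrable (fun z => g z * Real.exp (-onSp U (t, z))) := fun g hg hs =>
    cc_int _ (hg.mul hEc) hs.mul_right
  have gc : Continuous fun z : Sp n => ∑ i, (pd (sv i) φ z) ^ 2 :=
    continuous_finsetSum _ fun i _ => (pd_cont hφ _).pow 2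
  have gs : HasCompactSupport fun z : Sp n => ∑ i, (pd (sv i) φ z) ^ 2 := cs_sum _ fun i _ => by
    simp_rw [pow_two]
    exact (pd_supp hφs _).mul_right
  have hG : ∀ x : EuclideanSpace ℝ (Fin n),
      ‖fderiv ℝ (fun x : EuclideanSpace ℝ (Fin n) => φ (lp n x + 0)) x‖ ^ 2 * Real.exp (-U (pq t x)) =
      (fun z : Sp n => (∑ i, (pd (sv i) φ z) ^ 2) * Real.exp (-onSp U (t, z))) (lp n x) := by
    intro x
    rw [norm_fderiv_sq hφ 0 x, add_zero]
    rfl
  obtain ⟨c, hc⟩ := hcr (fun x : EuclideanSpace ℝ (Fin n) => Real.exp (-U (pq t x)))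
    (fun x => φ (lp n x + 0)) (fun x => Real.exp_pos _) hZc (fun a b s hs0 hs1 => by
      rw [← Real.exp_mul, ← Real.exp_mul, ← Real.exp_add]
      refine Real.exp_le_exp.2 ?_
      have h2 := hU.conv.2 (mem_univ (pq t a)) (mem_univ (pq t b)) (by linarith : 0 ≤ 1 - s) hs0.le
        (by ring)
      have h3 : (1 - s) • pq t a + s • pq t b = pq t ((1 - s) • a + s • b) := by
        unfold pq
        rw [← map_smul, ← map_smul, ← map_add]
        congr 1
        rw [Prod.smul_mk, Prod.smul_mk, Prod.mk_add_mk, map_add, map_smul, map_smul, ← add_smul,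
          sub_add_cancel, one_smul]
      rw [h3] at h2
      simp only [smul_eq_mul] at h2
      linarith)
    i1 σ hσ i2 hm (comp_smooth hφ 0) (by
      obtain ⟨B, hB⟩ := hφs.exists_bound_of_continuous hφ.continuous
      exact ⟨B, fun x => hB _⟩) (by
      simp_rw [hG]
      exact lp_integrable (bb _ gc gs))
  simp_rw [hG] at hc
  rw [lp_int (fun z : Sp n => (∑ i, (pd (sv i) φ z) ^ 2) * Real.exp (-onSp U (t, z)))] at hc
  have e5 : ∫ x : EuclideanSpace ℝ (Fin n), (φ (lp n x + 0) - c) ^ 2 * Real.exp (-U (pq t x)) =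
      ∫ z : Sp n, (φ z - c) ^ 2 * Real.exp (-onSp U (t, z)) := by
    rw [← lp_int (fun z : Sp n => (φ z - c) ^ 2 * Real.exp (-onSp U (t, z)))]
    refine integral_congr_ae (Eventually.of_forall fun x => ?_)
    simp only [add_zero]
    rfl
  rw [e5] at hc
  have hdi : Integrable (fun z : Sp n => Real.exp (-onSp U (t, z))) := by
    have h := (EuclideanSpace.volume_preserving_symm_measurableEquiv_toLp
      (Fin n)).integrable_comp_emb
      (MeasurableEquiv.toLp 2 (Fin n → ℝ)).symm.measurableEmbedding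
      (g := fun z : Sp n => Real.exp (-onSp U (t, z)))
    exact h.1 i1
  have j1 := bb (fun z => φ z ^ 2) (hφ.continuous.pow 2) (by simp_rw [pow_two]; exact hφs.mul_right)
  have j2 := bb φ hφ.continuous hφs
  have hde : dens (onSp U) t = ∫ z : Sp n, Real.exp (-onSp U (t, z)) := rfl
  have hd0 : 0 ≤ dens (onSp U) t := by
    rw [hde]
    exact integral_nonneg fun z => (Real.exp_pos _).le
  have j3 : Integrable (fun z => 2 * c * (φ z * Real.exp (-onSp U (t, z)))) := j2.const_mul _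
  have j4 : Integrable (fun z : Sp n => c ^ 2 * Real.exp (-onSp U (t, z))) := hdi.const_mul _
  have j12 : Integrable (fun z => φ z ^ 2 * Real.exp (-onSp U (t, z)) -
      2 * c * (φ z * Real.exp (-onSp U (t, z)))) := j1.sub j3
  have h2 : ∫ z, (φ z - c) ^ 2 * Real.exp (-onSp U (t, z)) =
      (∫ z, φ z ^ 2 * Real.exp (-onSp U (t, z))) - (∫ z, 2 * c * (φ z * Real.exp (-onSp U (t, z)))) +
        ∫ z, c ^ 2 * Real.exp (-onSp U (t, z)) := by
    rw [← integral_sub j1 j3, ← integral_add j12 j4]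
    refine integral_congr_ae (Eventually.of_forall fun z => ?_)
    simp only
    ring
  rw [h2, integral_const_mul, integral_const_mul, ← hde] at hc
  obtain ⟨d, hd⟩ : ∃ d, d = dens (onSp U) t := ⟨_, rfl⟩
  obtain ⟨a2, ha2⟩ : ∃ a2, a2 = ∫ z, φ z ^ 2 * Real.exp (-onSp U (t, z)) := ⟨_, rfl⟩
  obtain ⟨a1, ha1⟩ : ∃ a1, a1 = ∫ z, φ z * Real.exp (-onSp U (t, z)) := ⟨_, rfl⟩
  obtain ⟨G, hGd⟩ : ∃ G, G = ∫ z, (∑ i, (pd (sv i) φ z) ^ 2) * Real.exp (-onSp U (t, z)) := ⟨_, rfl⟩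
  rw [← hd, ← ha2, ← ha1, ← hGd] at hc
  rw [← hd] at hd0
  rw [← hd, ← ha2, ← ha1, ← hGd]
  have h3 := mul_le_mul_of_nonneg_left hc hd0
  nlinarith [sq_nonneg (a1 - c * d)]

end Pool.Agent.Q182.EM
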